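import Mathlib

set_option autoImplicit false

open Finset

namespace Pool.Agent.MPf28597

/-- The combinatorial lemma: nested finite sets `A 0 ⊇ A 1 ⊇ ...` inside a set of at most `m` indices,
`a`, `b` the `ℓ¹` and squared `ℓ²` sums of the coefficients over `A i`; if `b k * ∑_{i<k} a i ^ (-2) ≤ D`
for `k < n` and `a k > 0` for `k < n`, then `n ≤ 4 (D + 1) m`. -/
theorem comb (m n : ℕ) (Λ : Finset ℕ) (hΛ : Λ.card ≤ m) (c : ℕ → ℝ) (A : ℕ → Finset ℕ)
    (hA : ∀ i, A i ⊆ Λ) (hmono : ∀ i k, i ≤ k → A k ⊆ A i) (a b x : ℕ → ℝ)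
    (ha : ∀ i, a i = ∑ j ∈ A i, |c j|) (hb : ∀ i, b i = ∑ j ∈ A i, c j ^ 2)
    (hx : ∀ k, x k = ∑ i ∈ range k, 1 / (a i) ^ 2)
    (hpos : ∀ i < n, 0 < a i) (D : ℝ) (hD0 : 0 ≤ D) (hD : ∀ k < n, b k * x k ≤ D) :
    (n : ℝ) ≤ 4 * (D + 1) * m := by
  have hxs : ∀ k, x (k + 1) = x k + 1 / (a k) ^ 2 := by
    intro k; rw [hx, hx, sum_range_succ]
  have hx0 : x 0 = 0 := by rw [hx]; simp
  have hxm : ∀ k, x k ≤ x (k + 1) := by
    intro k; rw [hxs]; have : 0 ≤ 1 / (a k) ^ 2 := by positivity
    linarith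
  have hxn : ∀ k, 0 ≤ x k := by
    intro k; rw [hx]; positivity
  have hxp : ∀ k < n, 0 < x (k + 1) := by
    intro k hk
    rw [hxs]
    have h1 := hpos k hk
    have h2 := hxn k
    have : 0 < 1 / (a k) ^ 2 := by positivity
    linarith
  have hbn : ∀ k, 0 ≤ b k := by intro k; rw [hb]; positivity
  have hba : ∀ k, b k ≤ (a k) ^ 2 := by
    intro k
    rw [hb, ha]
    have := Finset.sum_sq_le_sq_sum_of_nonneg (s := A k) (f := fun j => |c j|) (fun j _ => abs_nonneg _)
    simpa [sq_abs] using this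
  have hD' : ∀ k < n, b k * x (k + 1) ≤ D + 1 := by
    intro k hk
    rw [hxs, mul_add]
    have h1 := hpos k hk
    have h2 : b k * (1 / (a k) ^ 2) ≤ 1 := by
      rw [mul_one_div, div_le_one (by positivity)]
      exact hba k
    have := hD k hk
    linarith
  set s : ℕ → ℝ := fun k => Real.sqrt (x k) with hs
  have hs0 : s 0 = 0 := by simp [hs, hx0]
  have hsm : ∀ k, s k ≤ s (k + 1) := fun k => Real.sqrt_le_sqrt (hxm k)
  have hsn : ∀ k, 0 ≤ s k := fun k => Real.sqrt_nonneg _
  have hsp : ∀ k < n, 0 < s (k + 1) := fun k hk => Real.sqrt_pos.mpr (hxp k hk)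
  have hss : ∀ k, s k ^ 2 = x k := fun k => Real.sq_sqrt (hxn k)
  -- weights
  set w : ℕ → ℝ := fun j => ∑ k ∈ range n, if j ∈ A k then s (k + 1) - s k else 0 with hw
  have hwn : ∀ j, 0 ≤ w j := by
    intro j
    refine sum_nonneg fun k _ => ?_
    split_ifs
    · exact sub_nonneg.mpr (hsm k)
    · exact le_rfl
  -- for `j ∈ A i`, `w j = s (i+1) + ∑_{i < k < n, j ∈ A k} (s (k+1) - s k)`
  have hwi : ∀ i < n, ∀ j ∈ A i, w j = s (i + 1) + ∑ k ∈ Ico (i + 1) n,
      if j ∈ A k then s (k + 1) - s k else 0 := by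
    intro i hi j hj
    simp only [hw]
    rw [← sum_range_add_sum_Ico _ (show i + 1 ≤ n from hi)]
    congr 1
    have h1 : ∀ k ∈ range (i + 1), (if j ∈ A k then s (k + 1) - s k else 0) = s (k + 1) - s k := by
      intro k hk
      rw [if_pos (hmono k i (by rw [mem_range] at hk; omega) hj)]
    rw [sum_congr rfl h1, sum_range_sub, hs0, sub_zero]
  have hwpos : ∀ i < n, ∀ j ∈ A i, 0 < w j := by
    intro i hi j hj
    rw [hwi i hi j hj]
    have h1 := hsp i hi
    have h2 : 0 ≤ ∑ k ∈ Ico (i + 1) n, if j ∈ A k then s (k + 1) - s k else 0 := by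
      refine sum_nonneg fun k _ => ?_
      split_ifs
      · exact sub_nonneg.mpr (hsm k)
      · exact le_rfl
    linarith
  -- first weighted sum
  have hW : ∀ i < n, ∑ j ∈ A i, c j ^ 2 * w j ≤ 2 * (D + 1) / s (i + 1) := by
    intro i hi
    have e1 : ∑ j ∈ A i, c j ^ 2 * w j = s (i + 1) * b i
        + ∑ k ∈ Ico (i + 1) n, (s (k + 1) - s k) * b k := by
      have h1 : ∀ j ∈ A i, c j ^ 2 * w j = s (i + 1) * c j ^ 2
          + ∑ k ∈ Ico (i + 1) n, if j ∈ A k then (s (k + 1) - s k) * c j ^ 2 else 0 := by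
        intro j hj
        rw [hwi i hi j hj, mul_add, mul_sum]
        congr 1
        · ring
        · refine sum_congr rfl fun k _ => ?_
          split_ifs
          · ring
          · ring
      rw [sum_congr rfl h1, sum_add_distrib, ← mul_sum, ← hb, sum_comm]
      congr 1
      refine sum_congr rfl fun k hk => ?_
      rw [← sum_filter]
      have h2 : (A i).filter (fun j => j ∈ A k) = A k := by
        ext j
        simp only [mem_filter]
        constructor
        · exact fun h => h.2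
        · intro h
          rw [mem_Ico] at hk
          exact ⟨hmono i k (by omega) h, h⟩
      rw [h2, ← mul_sum, ← hb]
    rw [e1]
    have hspi := hsp i hi
    have t1 : s (i + 1) * b i ≤ (D + 1) / s (i + 1) := by
      rw [le_div_iff₀ hspi]
      calc s (i + 1) * b i * s (i + 1) = b i * (s (i + 1) ^ 2) := by ring
        _ = b i * x (i + 1) := by rw [hss]
        _ ≤ D + 1 := hD' i hi
    have t2 : ∀ N, i + 1 ≤ N → N ≤ n → ∑ k ∈ Ico (i + 1) N, (s (k + 1) - s k) * b k
        ≤ (D + 1) * (1 / s (i + 1) - 1 / s N) := by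
      intro N hN
      induction N, hN using Nat.le_induction with
      | base => intro _; simp
      | succ N hN ih =>
        intro hNn
        rw [sum_Ico_succ_top hN]
        have ih' := ih (by omega)
        have hN1 : 0 < s N := by
          obtain ⟨N', rfl⟩ : ∃ N', N = N' + 1 := ⟨N - 1, by omega⟩
          exact hsp N' (by omega)
        have hN2 : 0 < s (N + 1) := hsp N (by omega)
        have h3 : b N ≤ (D + 1) / s (N + 1) ^ 2 := by
          rw [hss, le_div_iff₀ (hxp N (by omega))]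
          exact hD' N (by omega)
        have h4 : (s (N + 1) - s N) * b N ≤ (D + 1) * (1 / s N - 1 / s (N + 1)) := by
          calc (s (N + 1) - s N) * b N ≤ (s (N + 1) - s N) * ((D + 1) / s (N + 1) ^ 2) :=
                mul_le_mul_of_nonneg_left h3 (sub_nonneg.mpr (hsm N))
            _ ≤ (s (N + 1) - s N) * ((D + 1) / (s N * s (N + 1))) := by
                refine mul_le_mul_of_nonneg_left ?_ (sub_nonneg.mpr (hsm N))
                refine div_le_div_of_nonneg_left (by linarith) (by positivity) ?_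
                rw [sq]
                exact mul_le_mul_of_nonneg_right (hsm N) hN2.le
            _ = (D + 1) * (1 / s N - 1 / s (N + 1)) := by
                field_simp
        calc _ ≤ (D + 1) * (1 / s (i + 1) - 1 / s N) + (D + 1) * (1 / s N - 1 / s (N + 1)) :=
              add_le_add ih' h4
          _ = _ := by ring
    have t3 := t2 n hi le_rfl
    have t4 : (D + 1) * (1 / s (i + 1) - 1 / s n) ≤ (D + 1) / s (i + 1) := by
      have : 0 ≤ 1 / s n := by have := hsn n; positivity
      have e : (D + 1) / s (i + 1) = (D + 1) * (1 / s (i + 1)) := by ring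
      rw [e]
      exact mul_le_mul_of_nonneg_left (by linarith) (by linarith)
    have t5 : 2 * (D + 1) / s (i + 1) = (D + 1) / s (i + 1) + (D + 1) / s (i + 1) := by ring
    linarith
  -- Cauchy-Schwarz
  have hCS : ∀ i < n, (a i) ^ 2 ≤ (∑ j ∈ A i, c j ^ 2 * w j) * ∑ j ∈ A i, 1 / w j := by
    intro i hi
    rw [ha]
    refine sum_sq_le_sum_mul_sum_of_sq_le_mul _ (fun j _ => mul_nonneg (sq_nonneg _) (hwn j))
      (fun j _ => one_div_nonneg.mpr (hwn j)) (fun j hj => ?_)
    have := hwpos i hi j hj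
    rw [sq_abs]
    apply le_of_eq
    field_simp
  -- each step contributes one
  have hstep : ∀ i ∈ range n, (1 : ℝ) ≤ ∑ j ∈ Λ,
      if j ∈ A i then (4 * (D + 1)) * ((s (i + 1) - s i) / w j) else 0 := by
    intro i hi
    rw [mem_range] at hi
    have hai := hpos i hi
    have hspi := hsp i hi
    have h1 : (1 : ℝ) = (a i) ^ 2 * (x (i + 1) - x i) := by
      rw [hxs]; field_simp; ring
    have h2 : x (i + 1) - x i ≤ 2 * s (i + 1) * (s (i + 1) - s i) := by
      rw [← hss, ← hss]
      nlinarith [hsm i, hsn i, mul_nonneg (sub_nonneg.mpr (hsm i)) (sub_nonneg.mpr (hsm i))]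
    have h3 : 0 ≤ ∑ j ∈ A i, 1 / w j := sum_nonneg fun j _ => one_div_nonneg.mpr (hwn j)
    rw [← sum_filter]
    have h4 : Λ.filter (fun j => j ∈ A i) = A i := by
      ext j
      simp only [mem_filter]
      exact ⟨fun h => h.2, fun h => ⟨hA i h, h⟩⟩
    rw [h4]
    calc (1 : ℝ) = (a i) ^ 2 * (x (i + 1) - x i) := h1
      _ ≤ ((∑ j ∈ A i, c j ^ 2 * w j) * ∑ j ∈ A i, 1 / w j) * (x (i + 1) - x i) :=
          mul_le_mul_of_nonneg_right (hCS i hi) (sub_nonneg.mpr (hxm i))
      _ ≤ ((2 * (D + 1) / s (i + 1)) * ∑ j ∈ A i, 1 / w j) * (2 * s (i + 1) * (s (i + 1) - s i)) := by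
          refine mul_le_mul (mul_le_mul_of_nonneg_right (hW i hi) h3) h2
            (sub_nonneg.mpr (hxm i)) ?_
          exact mul_nonneg (div_nonneg (by linarith) hspi.le) h3
      _ = ∑ j ∈ A i, (4 * (D + 1)) * ((s (i + 1) - s i) / w j) := by
          rw [← mul_sum]
          simp_rw [div_eq_mul_one_div (s (i + 1) - s i)]
          rw [← mul_sum]
          field_simp
          ring
  calc (n : ℝ) = ∑ i ∈ range n, (1 : ℝ) := by simp
    _ ≤ ∑ i ∈ range n, ∑ j ∈ Λ,
      (if j ∈ A i then (4 * (D + 1)) * ((s (i + 1) - s i) / w j) else 0) := sum_le_sum hstep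
    _ = ∑ j ∈ Λ, (4 * (D + 1)) * (w j / w j) := by
        rw [sum_comm]
        refine sum_congr rfl fun j _ => ?_
        have e : ∀ i ∈ range n, (if j ∈ A i then (4 * (D + 1)) * ((s (i + 1) - s i) / w j) else 0)
            = (4 * (D + 1)) * ((if j ∈ A i then s (i + 1) - s i else 0) / w j) := by
          intro i _
          split_ifs
          · rfl
          · simp
        rw [sum_congr rfl e, ← mul_sum, ← sum_div]
    _ ≤ ∑ j ∈ Λ, (4 * (D + 1)) := by
        refine sum_le_sum fun j _ => ?_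
        exact mul_le_of_le_one_right (by linarith) (div_self_le_one _)
    _ = 4 * (D + 1) * Λ.card := by rw [sum_const, nsmul_eq_mul]; ring
    _ ≤ 4 * (D + 1) * m := by
        have : (Λ.card : ℝ) ≤ m := by exact_mod_cast hΛ
        exact mul_le_mul_of_nonneg_left this (by linarith)

end Pool.Agent.MPf28597
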