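import Mathlib

set_option autoImplicit false

namespace Pool.Agent.MPf28597

/-- the constant of the pointwise smoothness inequality -/
noncomputable def Cq (q : ℝ) : ℝ := q ^ 2 * Real.exp q

lemma exp_ineq (y : ℝ) : Real.exp y ≤ 1 + y + y ^ 2 * Real.exp |y| := by
  rcases le_or_gt |y| 1 with h | h
  · have h1 := Real.abs_exp_sub_one_sub_id_le h
    have h2 := le_abs_self (Real.exp y - 1 - y)
    have h3 : 1 ≤ Real.exp |y| := Real.one_le_exp (abs_nonneg y)
    nlinarith [sq_nonneg y]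
  · rcases le_or_gt 0 y with hy | hy
    · rw [abs_of_nonneg hy] at h ⊢
      have h3 : 0 < Real.exp y := Real.exp_pos y
      have h4 : 1 ≤ y ^ 2 := by nlinarith
      nlinarith
    · rw [abs_of_neg hy] at h ⊢
      have h3 : 1 ≤ Real.exp (-y) := Real.one_le_exp (by linarith)
      have h4 : Real.exp y ≤ 1 := Real.exp_le_one_iff.mpr hy.le
      nlinarith [sq_nonneg y, mul_nonneg (sq_nonneg y) (sub_nonneg.mpr h3)]

lemma one_var (q x : ℝ) (hq : 2 ≤ q) (hx : |x| ≤ 1) :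
    (1 + x) ^ q ≤ 1 + q * x + Cq q * x ^ 2 := by
  have hx1 := abs_le.mp hx
  have h0 : 0 ≤ 1 + x := by linarith
  have h1 : (1 + x) ^ q ≤ Real.exp (q * x) := by
    have h2 : 1 + x ≤ Real.exp x := by linarith [Real.add_one_le_exp x]
    calc (1 + x) ^ q ≤ (Real.exp x) ^ q := Real.rpow_le_rpow h0 h2 (by linarith)
      _ = Real.exp (q * x) := by rw [← Real.exp_mul]; ring_nf
  refine h1.trans ((exp_ineq (q * x)).trans ?_)
  have h3 : |q * x| ≤ q := by
    rw [abs_mul, abs_of_pos (by linarith : 0 < q)]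
    nlinarith [abs_nonneg x]
  have h4 : Real.exp |q * x| ≤ Real.exp q := Real.exp_le_exp.mpr h3
  have h5 : (q * x) ^ 2 * Real.exp |q * x| ≤ (q * x) ^ 2 * Real.exp q :=
    mul_le_mul_of_nonneg_left h4 (sq_nonneg _)
  unfold Cq
  nlinarith

lemma Cq_ge (q : ℝ) (hq : 2 ≤ q) : 2 ^ q + q ≤ Cq q := by
  unfold Cq
  have h1 : (2 : ℝ) ^ q ≤ Real.exp q := by
    have h2 : (2 : ℝ) ≤ Real.exp 1 := by linarith [Real.add_one_le_exp (1 : ℝ)]
    calc (2 : ℝ) ^ q ≤ (Real.exp 1) ^ q := Real.rpow_le_rpow (by norm_num) h2 (by linarith)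
      _ = Real.exp q := by rw [← Real.exp_mul, one_mul]
  have h2 : q ≤ Real.exp q := by linarith [Real.add_one_le_exp q]
  have h3 : 4 ≤ q ^ 2 := by nlinarith
  have h4 := Real.exp_pos q
  nlinarith

lemma Cq_pos (q : ℝ) (hq : 2 ≤ q) : 0 < Cq q := by
  unfold Cq
  have := Real.exp_pos q
  positivity

/-- pointwise smoothness inequality -/
lemma pw_ineq (q a b : ℝ) (hq : 2 ≤ q) :
    |a + b| ^ q ≤ |a| ^ q + q * (|a| ^ (q - 2) * a * b)
      + Cq q * (|a| ^ (q - 2) * b ^ 2 + |b| ^ q) := by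
  have hC := Cq_ge q hq
  have hCp := Cq_pos q hq
  rcases le_or_gt |a| |b| with h | h
  · have h1 : |a + b| ^ q ≤ 2 ^ q * |b| ^ q := by
      rw [← Real.mul_rpow (by norm_num) (abs_nonneg b)]
      refine Real.rpow_le_rpow (abs_nonneg _) ?_ (by linarith)
      linarith [abs_add_le a b]
    have h2 : |(|a| ^ (q - 2) * a * b)| ≤ |b| ^ q := by
      rw [abs_mul, abs_mul, abs_of_nonneg (Real.rpow_nonneg (abs_nonneg a) _)]
      have e : |b| ^ q = |b| ^ (q - 2) * |b| * |b| := by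
        rcases eq_or_lt_of_le (abs_nonneg b) with h0 | h0
        · rw [← h0, Real.zero_rpow (by linarith)]; simp
        · have : |b| ^ q = |b| ^ ((q - 2) + 1 + 1) := by ring_nf
          rw [this, Real.rpow_add h0, Real.rpow_add h0, Real.rpow_one]
      rw [e]
      have h3 : |a| ^ (q - 2) ≤ |b| ^ (q - 2) := Real.rpow_le_rpow (abs_nonneg a) h (by linarith)
      have h4 := Real.rpow_nonneg (abs_nonneg a) (q - 2)
      gcongr
    have h3 := neg_abs_le (|a| ^ (q - 2) * a * b)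
    have h4 : 0 ≤ |a| ^ q := Real.rpow_nonneg (abs_nonneg a) _
    have h5 : 0 ≤ |a| ^ (q - 2) * b ^ 2 :=
      mul_nonneg (Real.rpow_nonneg (abs_nonneg a) _) (sq_nonneg b)
    have h6 : 0 ≤ |b| ^ q := Real.rpow_nonneg (abs_nonneg b) _
    nlinarith [mul_nonneg hCp.le h5, mul_nonneg (sub_nonneg.mpr hC) h6]
  · have ha : 0 < |a| := (abs_nonneg b).trans_lt h
    have ha0 : a ≠ 0 := abs_pos.mp ha
    have hx : |b / a| ≤ 1 := by
      rw [abs_div, div_le_one ha]; exact h.le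
    have h1 := one_var q (b / a) hq hx
    have e1 : |a + b| ^ q = |a| ^ q * (1 + b / a) ^ q := by
      have : |a + b| = |a| * (1 + b / a) := by
        have h2 : a + b = a * (1 + b / a) := by field_simp
        rw [h2, abs_mul, abs_of_nonneg (by linarith [(abs_le.mp hx).1] : 0 ≤ 1 + b / a)]
      rw [this, Real.mul_rpow ha.le (by linarith [(abs_le.mp hx).1])]
    have e2 : |a| ^ q = |a| ^ (q - 2) * a ^ 2 := by
      have : |a| ^ q = |a| ^ ((q - 2) + 2) := by ring_nf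
      rw [this, Real.rpow_add ha]
      congr 1
      rw [Real.rpow_two, sq_abs]
    have h4 : 0 ≤ |a| ^ (q - 2) := Real.rpow_nonneg ha.le _
    have h6 : 0 ≤ |b| ^ q := Real.rpow_nonneg (abs_nonneg b) _
    rw [e1]
    calc |a| ^ q * (1 + b / a) ^ q ≤ |a| ^ q * (1 + q * (b / a) + Cq q * (b / a) ^ 2) :=
          mul_le_mul_of_nonneg_left h1 (Real.rpow_nonneg ha.le _)
      _ = |a| ^ q + q * (|a| ^ (q - 2) * a * b) + Cq q * (|a| ^ (q - 2) * b ^ 2) := by
          rw [e2]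
          field_simp
      _ ≤ _ := by nlinarith [mul_nonneg hCp.le h6]

/-- Young type bounds -/
lemma young2 (q a b : ℝ) (hq : 2 ≤ q) : |a| ^ (q - 2) * b ^ 2 ≤ |a| ^ q + |b| ^ q := by
  have e : ∀ y : ℝ, |y| ^ q = |y| ^ (q - 2) * y ^ 2 := by
    intro y
    rcases eq_or_lt_of_le (abs_nonneg y) with h0 | h0
    · have : y = 0 := abs_eq_zero.mp h0.symm
      subst this
      simp [Real.zero_rpow (by linarith : (0 : ℝ) < q).ne']
    · have : |y| ^ q = |y| ^ ((q - 2) + 2) := by ring_nf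
      rw [this, Real.rpow_add h0]
      congr 1
      rw [Real.rpow_two, sq_abs]
  have ha := Real.rpow_nonneg (abs_nonneg a) q
  have hb := Real.rpow_nonneg (abs_nonneg b) q
  rcases le_or_gt |a| |b| with h | h
  · have h3 : |a| ^ (q - 2) ≤ |b| ^ (q - 2) := Real.rpow_le_rpow (abs_nonneg a) h (by linarith)
    have := mul_le_mul_of_nonneg_right h3 (sq_nonneg b)
    rw [← e b] at this
    linarith
  · have h3 : b ^ 2 ≤ a ^ 2 := by
      rw [← sq_abs b, ← sq_abs a]; exact pow_le_pow_left₀ (abs_nonneg b) h.le 2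
    have := mul_le_mul_of_nonneg_left h3 (Real.rpow_nonneg (abs_nonneg a) (q - 2))
    rw [← e a] at this
    linarith

lemma abs_rpow_eq (q y : ℝ) (hq : 2 ≤ q) : |y| ^ q = |y| ^ (q - 2) * y * y := by
  rcases eq_or_lt_of_le (abs_nonneg y) with h0 | h0
  · have : y = 0 := abs_eq_zero.mp h0.symm
    subst this
    simp [Real.zero_rpow (by linarith : (0 : ℝ) < q).ne']
  · have : |y| ^ q = |y| ^ ((q - 2) + 2) := by ring_nf
    rw [this, Real.rpow_add h0, Real.rpow_two, sq_abs]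
    ring

lemma young1 (q a b : ℝ) (hq : 2 ≤ q) : |(|a| ^ (q - 2) * a * b)| ≤ |a| ^ q + |b| ^ q := by
  rw [abs_mul, abs_mul, abs_of_nonneg (Real.rpow_nonneg (abs_nonneg a) _)]
  have h1 : |a| * |b| ≤ (a ^ 2 + b ^ 2) / 2 := by
    rw [← sq_abs a, ← sq_abs b]; nlinarith [sq_nonneg (|a| - |b|)]
  have h2 := young2 q a b hq
  have h3 := young2 q a a hq
  have h4 := Real.rpow_nonneg (abs_nonneg a) (q - 2)
  have e := abs_rpow_eq q a hq
  have hb := Real.rpow_nonneg (abs_nonneg b) q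
  have ha := Real.rpow_nonneg (abs_nonneg a) q
  calc |a| ^ (q - 2) * |a| * |b| = |a| ^ (q - 2) * (|a| * |b|) := by ring
    _ ≤ |a| ^ (q - 2) * ((a ^ 2 + b ^ 2) / 2) := mul_le_mul_of_nonneg_left h1 h4
    _ = (|a| ^ (q - 2) * a * a) / 2 + (|a| ^ (q - 2) * b ^ 2) / 2 := by ring
    _ ≤ _ := by rw [← e]; linarith

/-- the passage from the `q`-th power decay to decay of the inverse square -/
lemma inv_sq_step (q N N' y : ℝ) (hq : 2 ≤ q) (hN : 0 < N) (hN' : 0 < N') (hy : 0 ≤ y)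
    (h : N' ^ q ≤ N ^ q * (1 - y)) : 1 / N ^ 2 + (2 / q) * y / N ^ 2 ≤ 1 / N' ^ 2 := by
  have hNq : 0 < N ^ q := Real.rpow_pos_of_pos hN q
  have hNq' : 0 < N' ^ q := Real.rpow_pos_of_pos hN' q
  have hy1 : 0 < 1 - y := by
    by_contra hcon
    push Not at hcon
    nlinarith
  have hr : 0 ≤ 2 / q := by positivity
  have hr1 : 2 / q ≤ 1 := by rw [div_le_one (by linarith)]; exact hq
  have e : ∀ M : ℝ, 0 < M → (M ^ q) ^ (2 / q) = M ^ 2 := by
    intro M hM
    rw [← Real.rpow_mul hM.le]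
    have : q * (2 / q) = 2 := by field_simp
    rw [this, Real.rpow_two]
  have h1 : N' ^ 2 ≤ N ^ 2 * (1 - y) ^ (2 / q) := by
    rw [← e N' hN', ← e N hN, ← Real.mul_rpow hNq.le hy1.le]
    exact Real.rpow_le_rpow hNq'.le h hr
  have h2 : (1 - y) ^ (2 / q) ≤ 1 - (2 / q) * y := by
    have := rpow_one_add_le_one_add_mul_self (s := -y) (by linarith) hr hr1
    have e1 : 1 + -y = 1 - y := by ring
    have e2 : 1 + 2 / q * -y = 1 - 2 / q * y := by ring
    rwa [e1, e2] at this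
  set z := (2 / q) * y with hz
  have hz0 : 0 ≤ z := mul_nonneg hr hy
  have h3 : N' ^ 2 ≤ N ^ 2 * (1 - z) := h1.trans (mul_le_mul_of_nonneg_left h2 (sq_nonneg N))
  have hN2 : 0 < N ^ 2 := by positivity
  have hN2' : 0 < N' ^ 2 := by positivity
  rw [← add_div, div_le_div_iff₀ hN2 hN2', one_mul]
  nlinarith [mul_le_mul_of_nonneg_left h3 (by linarith : 0 ≤ 1 + z), mul_nonneg hz0 hz0, mul_nonneg hN2.le (mul_nonneg hz0 hz0)]

end Pool.Agent.MPf28597
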