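import Pool.Agent.Lib.MP_f28597_an.Ineq

set_option autoImplicit false

open MeasureTheory Filter Topology
open scoped ENNReal

namespace Pool.Agent.MPf28597

variable {X : Type*} [MeasurableSpace X] {μ : Measure X} {p : ℝ≥0∞} [Fact (1 ≤ p)]

omit [Fact (1 ≤ p)] in
lemma q_ge (hp2 : 2 ≤ p) (hpt : p ≠ ⊤) : 2 ≤ p.toReal := by
  have := ENNReal.toReal_mono hpt hp2
  simpa using this

lemma int_pow (hp2 : 2 ≤ p) (hpt : p ≠ ⊤) (f : Lp ℝ p μ) :
    Integrable (fun x => |f x| ^ p.toReal) μ := by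
  have := (Lp.memLp f).integrable_norm_rpow (by rintro rfl; simp at hp2) hpt
  simpa [Real.norm_eq_abs] using this

lemma norm_pow (hp2 : 2 ≤ p) (hpt : p ≠ ⊤) (f : Lp ℝ p μ) :
    ‖f‖ ^ p.toReal = ∫ x, |f x| ^ p.toReal ∂μ := by
  have hq := q_ge hp2 hpt
  have h0 : p ≠ 0 := by rintro rfl; simp at hp2
  have hnn : 0 ≤ ∫ x, |f x| ^ p.toReal ∂μ := integral_nonneg fun x => Real.rpow_nonneg (abs_nonneg _) _
  rw [Lp.norm_def, (Lp.memLp f).eLpNorm_eq_integral_rpow_norm h0 hpt]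
  simp only [Real.norm_eq_abs]
  rw [ENNReal.toReal_ofReal (Real.rpow_nonneg hnn _), ← Real.rpow_mul hnn,
    inv_mul_cancel₀ (by linarith), Real.rpow_one]

lemma int_pair (hp2 : 2 ≤ p) (hpt : p ≠ ⊤) (f g : Lp ℝ p μ) :
    Integrable (fun x => |f x| ^ (p.toReal - 2) * f x * g x) μ := by
  have hq := q_ge hp2 hpt
  refine ((int_pow hp2 hpt f).add (int_pow hp2 hpt g)).mono' ?_ ?_
  · have hf := (Lp.aestronglyMeasurable f)
    have hg := (Lp.aestronglyMeasurable g)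
    exact ((((continuous_abs.comp_aestronglyMeasurable hf).aemeasurable.pow_const
      _).aestronglyMeasurable).mul hf).mul hg
  · exact Eventually.of_forall fun x => by
      rw [Real.norm_eq_abs]; exact young1 _ _ _ hq

lemma int_sq2 (hp2 : 2 ≤ p) (hpt : p ≠ ⊤) (f g : Lp ℝ p μ) :
    Integrable (fun x => |f x| ^ (p.toReal - 2) * (g x) ^ 2) μ := by
  have hq := q_ge hp2 hpt
  refine ((int_pow hp2 hpt f).add (int_pow hp2 hpt g)).mono' ?_ ?_
  · have hf := (Lp.aestronglyMeasurable f)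
    have hg := (Lp.aestronglyMeasurable g)
    exact (((continuous_abs.comp_aestronglyMeasurable hf).aemeasurable.pow_const
      _).aestronglyMeasurable).mul (hg.pow 2)
  · exact Eventually.of_forall fun x => by
      rw [Real.norm_eq_abs, abs_of_nonneg (mul_nonneg (Real.rpow_nonneg (abs_nonneg _) _)
        (sq_nonneg _))]
      exact young2 _ _ _ hq

/-- unnormalised norming pairing, as a linear map in the second argument -/
noncomputable def pairL (hp2 : 2 ≤ p) (hpt : p ≠ ⊤) (f : Lp ℝ p μ) : Lp ℝ p μ →ₗ[ℝ] ℝ where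
  toFun g := ∫ x, |f x| ^ (p.toReal - 2) * f x * g x ∂μ
  map_add' g h := by
    rw [← integral_add (int_pair hp2 hpt f g) (int_pair hp2 hpt f h)]
    refine integral_congr_ae ?_
    filter_upwards [Lp.coeFn_add g h] with x hx
    rw [hx, Pi.add_apply]
    ring
  map_smul' c g := by
    rw [RingHom.id_apply, smul_eq_mul, ← integral_const_mul]
    refine integral_congr_ae ?_
    filter_upwards [Lp.coeFn_smul c g] with x hx
    rw [hx, Pi.smul_apply, smul_eq_mul]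
    ring

lemma pairL_apply (hp2 : 2 ≤ p) (hpt : p ≠ ⊤) (f g : Lp ℝ p μ) :
    pairL hp2 hpt f g = ∫ x, |f x| ^ (p.toReal - 2) * f x * g x ∂μ := rfl

lemma pairL_self (hp2 : 2 ≤ p) (hpt : p ≠ ⊤) (f : Lp ℝ p μ) :
    pairL hp2 hpt f f = ‖f‖ ^ p.toReal := by
  rw [pairL_apply, norm_pow hp2 hpt]
  refine integral_congr_ae (Eventually.of_forall fun x => ?_)
  exact (abs_rpow_eq _ _ (q_ge hp2 hpt)).symm

lemma young_pt (q : ℝ) (hq : 2 ≤ q) (x y : ℝ) (hx : 0 ≤ x) (hy : 0 ≤ y) :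
    x ^ (q - 1) * y ≤ (q - 1) / q * x ^ q + 1 / q * y ^ q := by
  have hpq : (Real.conjExponent q).HolderConjugate q :=
    (Real.HolderConjugate.conjExponent (by linarith)).symm
  have h := Real.young_inequality_of_nonneg (Real.rpow_nonneg hx (q - 1)) hy hpq
  have e1 : (x ^ (q - 1)) ^ (Real.conjExponent q) = x ^ q := by
    rw [← Real.rpow_mul hx, Real.conjExponent]
    congr 1
    have : q - 1 ≠ 0 := by linarith
    field_simp
  rw [e1, Real.conjExponent] at h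
  refine h.trans (le_of_eq ?_)
  have h1 : q - 1 ≠ 0 := by linarith
  have h2 : q ≠ 0 := by linarith
  field_simp

/-- Hölder's inequality for the pairing -/
lemma pairL_bound (hp2 : 2 ≤ p) (hpt : p ≠ ⊤) (f g : Lp ℝ p μ) :
    |pairL hp2 hpt f g| ≤ ‖f‖ ^ (p.toReal - 1) * ‖g‖ := by
  have hq := q_ge hp2 hpt
  set q := p.toReal with hqdef
  rcases eq_or_ne f 0 with hf | hf
  · have : pairL hp2 hpt f g = 0 := by
      rw [pairL_apply]
      have h1 : ∀ᵐ x ∂μ, |f x| ^ (p.toReal - 2) * f x * g x = 0 := by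
        rw [hf]
        filter_upwards [Lp.coeFn_zero ℝ p μ] with x hx
        rw [hx]; simp
      rw [integral_congr_ae h1]; simp
    rw [this, abs_zero]
    positivity
  rcases eq_or_ne g 0 with hg | hg
  · rw [hg]; simp
  have hN : 0 < ‖f‖ := norm_pos_iff.mpr hf
  have hK : 0 < ‖g‖ := norm_pos_iff.mpr hg
  set N := ‖f‖ with hNdef
  set K := ‖g‖ with hKdef
  have hNq : 0 < N ^ q := Real.rpow_pos_of_pos hN q
  have hKq : 0 < K ^ q := Real.rpow_pos_of_pos hK q
  rw [pairL_apply]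
  refine (abs_integral_le_integral_abs).trans ?_
  have hpt' : ∀ x, |(|f x| ^ (q - 2) * f x * g x)|
      ≤ N ^ (q - 1) * K * ((q - 1) / q * (|f x| ^ q / N ^ q) + 1 / q * (|g x| ^ q / K ^ q)) := by
    intro x
    have h1 := young_pt q hq (|f x| / N) (|g x| / K) (by positivity) (by positivity)
    rw [Real.div_rpow (abs_nonneg _) hN.le, Real.div_rpow (abs_nonneg _) hN.le,
      Real.div_rpow (abs_nonneg _) hK.le] at h1
    have hN1 : 0 < N ^ (q - 1) := Real.rpow_pos_of_pos hN _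
    have e : |(|f x| ^ (q - 2) * f x * g x)| = |f x| ^ (q - 1) * |g x| := by
      rw [abs_mul, abs_mul, abs_of_nonneg (Real.rpow_nonneg (abs_nonneg _) _)]
      congr 1
      rcases eq_or_lt_of_le (abs_nonneg (f x)) with h0 | h0
      · rw [← h0, Real.zero_rpow (by linarith : (0:ℝ) < q - 1).ne']; simp
      · have : |f x| ^ (q - 1) = |f x| ^ ((q - 2) + 1) := by ring_nf
        rw [this, Real.rpow_add h0, Real.rpow_one]
    rw [e]
    calc |f x| ^ (q - 1) * |g x| = N ^ (q - 1) * K * (|f x| ^ (q - 1) / N ^ (q - 1) * (|g x| / K)) := by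
          field_simp
      _ ≤ _ := mul_le_mul_of_nonneg_left h1 (by positivity)
  have hI1 : Integrable (fun x => |f x| ^ q) μ := int_pow hp2 hpt f
  have hI2 : Integrable (fun x => |g x| ^ q) μ := int_pow hp2 hpt g
  calc ∫ x, |(|f x| ^ (q - 2) * f x * g x)| ∂μ
      ≤ ∫ x, N ^ (q - 1) * K * ((q - 1) / q * (|f x| ^ q / N ^ q) + 1 / q * (|g x| ^ q / K ^ q)) ∂μ := by
        refine integral_mono (int_pair hp2 hpt f g).abs ?_ hpt'
        exact ((((hI1.div_const _).const_mul _).add ((hI2.div_const _).const_mul _)).const_mul _)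
    _ = N ^ (q - 1) * K * ((q - 1) / q * ((∫ x, |f x| ^ q ∂μ) / N ^ q)
          + 1 / q * ((∫ x, |g x| ^ q ∂μ) / K ^ q)) := by
        rw [integral_const_mul, integral_add ((hI1.div_const _).const_mul _)
          ((hI2.div_const _).const_mul _), integral_const_mul, integral_const_mul,
          integral_div, integral_div]
    _ = N ^ (q - 1) * K := by
        rw [← norm_pow hp2 hpt f, ← norm_pow hp2 hpt g, ← hNdef, ← hKdef, div_self hNq.ne',
          div_self hKq.ne']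
        field_simp
        ring

lemma sq2_bound (hp2 : 2 ≤ p) (hpt : p ≠ ⊤) (f g : Lp ℝ p μ) (hf : f ≠ 0) :
    ∫ x, |f x| ^ (p.toReal - 2) * (g x) ^ 2 ∂μ ≤ 2 * ‖f‖ ^ (p.toReal - 2) * ‖g‖ ^ 2 := by
  have hq := q_ge hp2 hpt
  set q := p.toReal with hqdef
  rcases eq_or_ne g 0 with hg | hg
  · have h1 : ∀ᵐ x ∂μ, |f x| ^ (q - 2) * (g x) ^ 2 = 0 := by
      rw [hg]
      filter_upwards [Lp.coeFn_zero ℝ p μ] with x hx
      rw [hx]; simp
    rw [integral_congr_ae h1]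
    simp
    positivity
  have hN : 0 < ‖f‖ := norm_pos_iff.mpr hf
  have hK : 0 < ‖g‖ := norm_pos_iff.mpr hg
  set N := ‖f‖ with hNdef
  set K := ‖g‖ with hKdef
  have hNq : 0 < N ^ q := Real.rpow_pos_of_pos hN q
  have hKq : 0 < K ^ q := Real.rpow_pos_of_pos hK q
  have hN1 : 0 < N ^ (q - 2) := Real.rpow_pos_of_pos hN _
  have hpt' : ∀ x, |f x| ^ (q - 2) * (g x) ^ 2
      ≤ N ^ (q - 2) * K ^ 2 * (|f x| ^ q / N ^ q + |g x| ^ q / K ^ q) := by
    intro x
    have h1 := young2 q (f x / N) (g x / K) hq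
    rw [abs_div, abs_div, abs_of_pos hN, abs_of_pos hK, Real.div_rpow (abs_nonneg _) hN.le,
      Real.div_rpow (abs_nonneg _) hN.le, Real.div_rpow (abs_nonneg _) hK.le, div_pow] at h1
    calc |f x| ^ (q - 2) * (g x) ^ 2
        = N ^ (q - 2) * K ^ 2 * (|f x| ^ (q - 2) / N ^ (q - 2) * ((g x) ^ 2 / K ^ 2)) := by
          field_simp
      _ ≤ _ := mul_le_mul_of_nonneg_left h1 (by positivity)
  have hI1 : Integrable (fun x => |f x| ^ q) μ := int_pow hp2 hpt f
  have hI2 : Integrable (fun x => |g x| ^ q) μ := int_pow hp2 hpt g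
  calc ∫ x, |f x| ^ (q - 2) * (g x) ^ 2 ∂μ
      ≤ ∫ x, N ^ (q - 2) * K ^ 2 * (|f x| ^ q / N ^ q + |g x| ^ q / K ^ q) ∂μ := by
        refine integral_mono (int_sq2 hp2 hpt f g) ?_ hpt'
        exact (((hI1.div_const _).add (hI2.div_const _)).const_mul _)
    _ = N ^ (q - 2) * K ^ 2 * ((∫ x, |f x| ^ q ∂μ) / N ^ q + (∫ x, |g x| ^ q ∂μ) / K ^ q) := by
        rw [integral_const_mul, integral_add (hI1.div_const _) (hI2.div_const _),
          integral_div, integral_div]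
    _ = 2 * N ^ (q - 2) * K ^ 2 := by
        rw [← norm_pow hp2 hpt f, ← norm_pow hp2 hpt g, ← hNdef, ← hKdef, div_self hNq.ne',
          div_self hKq.ne']
        ring

/-- smoothness of the norm, integrated form -/
lemma smooth (hp2 : 2 ≤ p) (hpt : p ≠ ⊤) (f g : Lp ℝ p μ) :
    ‖f + g‖ ^ p.toReal ≤ ‖f‖ ^ p.toReal + p.toReal * pairL hp2 hpt f g
      + Cq p.toReal * ((∫ x, |f x| ^ (p.toReal - 2) * (g x) ^ 2 ∂μ) + ‖g‖ ^ p.toReal) := by
  have hq := q_ge hp2 hpt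
  have hI1 := int_pow hp2 hpt f
  have hI2 := int_pow hp2 hpt g
  have hI3 := int_pair hp2 hpt f g
  have hI4 := int_sq2 hp2 hpt f g
  have hI5 : Integrable (fun x => |f x| ^ p.toReal
      + p.toReal * (|f x| ^ (p.toReal - 2) * f x * g x)) μ := hI1.add (hI3.const_mul _)
  have hI6 : Integrable (fun x => Cq p.toReal * (|f x| ^ (p.toReal - 2) * (g x) ^ 2
      + |g x| ^ p.toReal)) μ := (hI4.add hI2).const_mul _
  rw [norm_pow hp2 hpt (f + g), norm_pow hp2 hpt f, norm_pow hp2 hpt g, pairL_apply,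
    ← integral_const_mul, ← integral_add hI1 (hI3.const_mul _), ← integral_add hI4 hI2,
    ← integral_const_mul, ← integral_add hI5 hI6]
  refine integral_mono_ae (int_pow hp2 hpt (f + g)) (hI5.add hI6) ?_
  filter_upwards [Lp.coeFn_add f g] with x hx
  rw [hx, Pi.add_apply]
  exact pw_ineq _ _ _ hq

lemma smooth_smul (hp2 : 2 ≤ p) (hpt : p ≠ ⊤) (f g : Lp ℝ p μ) (hf : f ≠ 0) (hg : ‖g‖ = 1)
    (l : ℝ) (hl : |l| ≤ ‖f‖) :
    ‖f + l • g‖ ^ p.toReal ≤ ‖f‖ ^ p.toReal + p.toReal * l * pairL hp2 hpt f g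
      + 3 * Cq p.toReal * l ^ 2 * ‖f‖ ^ (p.toReal - 2) := by
  have hq := q_ge hp2 hpt
  have h1 := smooth hp2 hpt f (l • g)
  have h2 := sq2_bound hp2 hpt f (l • g) hf
  have hn : ‖l • g‖ = |l| := by rw [norm_smul, hg, mul_one, Real.norm_eq_abs]
  rw [hn] at h1 h2
  rw [map_smul, smul_eq_mul] at h1
  have hC := Cq_pos p.toReal hq
  have h3 : |l| ^ p.toReal ≤ l ^ 2 * ‖f‖ ^ (p.toReal - 2) := by
    rw [abs_rpow_eq _ _ hq]
    have : |l| ^ (p.toReal - 2) ≤ ‖f‖ ^ (p.toReal - 2) :=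
      Real.rpow_le_rpow (abs_nonneg _) hl (by linarith)
    nlinarith [mul_le_mul_of_nonneg_right this (sq_nonneg l)]
  rw [sq_abs] at h2
  nlinarith [mul_le_mul_of_nonneg_left (add_le_add h2 h3) hC.le]

/-- a step of size one decreases the norm -/
lemma descent (hp2 : 2 ≤ p) (hpt : p ≠ ⊤) (f g : Lp ℝ p μ) (hf : f ≠ 0) (hg : ‖g‖ = 1) :
    ∃ l : ℝ, ‖f + l • g‖ ^ p.toReal ≤ ‖f‖ ^ p.toReal *
      (1 - (1 / (12 * Real.exp p.toReal)) * (|pairL hp2 hpt f g| / ‖f‖ ^ (p.toReal - 1)) ^ 2) := by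
  have hq := q_ge hp2 hpt
  set q := p.toReal with hqdef
  have hN : 0 < ‖f‖ := norm_pos_iff.mpr hf
  set N := ‖f‖ with hNdef
  set P := pairL hp2 hpt f g with hP
  have hb := pairL_bound hp2 hpt f g
  rw [hg, mul_one] at hb
  have hN1 : 0 < N ^ (q - 1) := Real.rpow_pos_of_pos hN _
  have hN2 : 0 < N ^ (q - 2) := Real.rpow_pos_of_pos hN _
  have hC := Cq_pos q hq
  set Θ := P / N ^ (q - 1) with hΘ
  have hΘ1 : |Θ| ≤ 1 := by
    rw [hΘ, abs_div, abs_of_pos hN1, div_le_one hN1]; exact hb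
  have hPΘ : P = Θ * N ^ (q - 1) := by rw [hΘ]; field_simp
  have e1 : N ^ (q - 1) = N ^ (q - 2) * N := by
    have : N ^ (q - 1) = N ^ ((q - 2) + 1) := by ring_nf
    rw [this, Real.rpow_add hN, Real.rpow_one]
  have e2 : N ^ q = N ^ (q - 2) * N ^ 2 := by
    have : N ^ q = N ^ ((q - 2) + 2) := by ring_nf
    rw [this, Real.rpow_add hN, Real.rpow_two]
  refine ⟨-(N * Θ * q / (6 * Cq q)), ?_⟩
  have hCge : q ≤ 6 * Cq q := by
    have h1 := Cq_ge q hq
    have h2 : 0 < (2 : ℝ) ^ q := Real.rpow_pos_of_pos (by norm_num) q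
    linarith
  have hl : |(-(N * Θ * q / (6 * Cq q)))| ≤ ‖f‖ := by
    rw [abs_neg, abs_div, abs_mul, abs_mul, abs_of_pos hN, abs_of_pos (by linarith : 0 < q),
      abs_of_pos (by linarith : 0 < 6 * Cq q), div_le_iff₀ (by linarith)]
    have : N * |Θ| * q ≤ N * 1 * (6 * Cq q) := by gcongr
    linarith
  have h1 := smooth_smul hp2 hpt f g hf hg _ hl
  refine h1.trans (le_of_eq ?_)
  rw [← hqdef, ← hNdef, ← hP, hPΘ]
  have e3 : (|Θ * N ^ (q - 1)| / N ^ (q - 1)) ^ 2 = Θ ^ 2 := by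
    rw [abs_mul, abs_of_pos hN1, mul_div_cancel_right₀ _ hN1.ne', sq_abs]
  rw [e3, e1, e2]
  unfold Cq
  have := Real.exp_pos q
  field_simp
  ring

/-- the norming functional annihilates directions in which the norm cannot be decreased -/
lemma pair_zero (hp2 : 2 ≤ p) (hpt : p ≠ ⊤) (f g : Lp ℝ p μ)
    (h : ∀ l : ℝ, ‖f‖ ≤ ‖f + l • g‖) : pairL hp2 hpt f g = 0 := by
  have hq := q_ge hp2 hpt
  set q := p.toReal with hqdef
  set P := pairL hp2 hpt f g with hP
  set I := ∫ x, |f x| ^ (q - 2) * (g x) ^ 2 ∂μ with hI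
  have hI0 : 0 ≤ I := integral_nonneg fun x =>
    mul_nonneg (Real.rpow_nonneg (abs_nonneg _) _) (sq_nonneg _)
  have hC := Cq_pos q hq
  set K := Cq q * (I + ‖g‖ ^ q) with hK
  have hK0 : 0 ≤ K := mul_nonneg hC.le (add_nonneg hI0 (Real.rpow_nonneg (norm_nonneg _) _))
  have key : ∀ l : ℝ, |l| ≤ 1 → 0 ≤ q * (l * P) + K * l ^ 2 := by
    intro l hl
    have h1 := smooth hp2 hpt f (l • g)
    have h2 : ‖f‖ ^ q ≤ ‖f + l • g‖ ^ q := Real.rpow_le_rpow (norm_nonneg _) (h l) (by linarith)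
    have h3 : ∫ x, |f x| ^ (q - 2) * ((l • g : Lp ℝ p μ) x) ^ 2 ∂μ = l ^ 2 * I := by
      rw [hI, ← integral_const_mul]
      refine integral_congr_ae ?_
      filter_upwards [Lp.coeFn_smul l g] with x hx
      rw [hx, Pi.smul_apply, smul_eq_mul]; ring
    have h4 : ‖l • g‖ ^ q ≤ l ^ 2 * ‖g‖ ^ q := by
      rw [norm_smul, Real.mul_rpow (norm_nonneg _) (norm_nonneg _)]
      refine mul_le_mul_of_nonneg_right ?_ (Real.rpow_nonneg (norm_nonneg _) _)
      rw [Real.norm_eq_abs, abs_rpow_eq _ _ hq]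
      have : |l| ^ (q - 2) ≤ 1 := Real.rpow_le_one (abs_nonneg _) hl (by linarith)
      nlinarith [mul_le_mul_of_nonneg_right this (sq_nonneg l)]
    rw [map_smul, smul_eq_mul, ← hqdef, h3] at h1
    have h5 := mul_le_mul_of_nonneg_left h4 hC.le
    rw [hK]
    nlinarith
  by_contra hne
  have hPpos : 0 < |P| := abs_pos.mpr hne
  set s := min (1 / |P|) (q / (2 * (K + 1))) with hs
  have hs0 : 0 < s := lt_min (by positivity) (by positivity)
  have hs1 : s * |P| ≤ 1 := by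
    have := min_le_left (1 / |P|) (q / (2 * (K + 1)))
    rw [← hs, le_div_iff₀ hPpos] at this
    exact this
  have hs2 : s * (2 * (K + 1)) ≤ q := by
    have := min_le_right (1 / |P|) (q / (2 * (K + 1)))
    rw [← hs, le_div_iff₀ (by positivity)] at this
    exact this
  have h1 := key (-(s * P)) (by rw [abs_neg, abs_mul, abs_of_pos hs0]; exact hs1)
  have hP2 : 0 < P ^ 2 := by positivity
  have h2 : q * (-(s * P) * P) + K * (-(s * P)) ^ 2 = s * P ^ 2 * (K * s - q) := by ring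
  rw [h2] at h1
  have h3 : K * s - q < 0 := by nlinarith
  have : s * P ^ 2 * (K * s - q) < 0 := mul_neg_of_pos_of_neg (by positivity) h3
  linarith

/-! ### The quadratic form -/

section quad
variable [IsFiniteMeasure μ]

lemma sq_le_pow (q y : ℝ) (hq : 2 ≤ q) : y ^ 2 ≤ 1 + |y| ^ q := by
  rcases le_or_gt |y| 1 with h | h
  · have h1 : y ^ 2 ≤ 1 := by rw [← sq_abs]; nlinarith [abs_nonneg y]
    have := Real.rpow_nonneg (abs_nonneg y) q
    linarith
  · have h1 : |y| ^ (2 : ℝ) ≤ |y| ^ q := Real.rpow_le_rpow_of_exponent_le h.le hq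
    rw [Real.rpow_two, sq_abs] at h1
    linarith

lemma int_sq (hp2 : 2 ≤ p) (hpt : p ≠ ⊤) (f : Lp ℝ p μ) : Integrable (fun x => (f x) ^ 2) μ := by
  have hq := q_ge hp2 hpt
  refine ((integrable_const (1 : ℝ)).add (int_pow hp2 hpt f)).mono' ?_ ?_
  · exact (Lp.aestronglyMeasurable f).pow 2
  · exact Eventually.of_forall fun x => by
      rw [Real.norm_eq_abs, abs_of_nonneg (sq_nonneg _)]
      exact sq_le_pow _ _ hq

lemma int_mul (hp2 : 2 ≤ p) (hpt : p ≠ ⊤) (f g : Lp ℝ p μ) : Integrable (fun x => f x * g x) μ := by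
  refine ((int_sq hp2 hpt f).add (int_sq hp2 hpt g)).mono' ?_ ?_
  · exact (Lp.aestronglyMeasurable f).mul (Lp.aestronglyMeasurable g)
  · exact Eventually.of_forall fun x => by
      rw [Real.norm_eq_abs, abs_mul]
      show |f x| * |g x| ≤ (f x) ^ 2 + (g x) ^ 2
      rw [← sq_abs (f x), ← sq_abs (g x)]
      nlinarith [sq_nonneg (|f x| - |g x|), sq_nonneg (|f x| + |g x|)]

/-- the `L²` pairing with `g`, linear in the first argument -/
noncomputable def innL (hp2 : 2 ≤ p) (hpt : p ≠ ⊤) (g : Lp ℝ p μ) : Lp ℝ p μ →ₗ[ℝ] ℝ where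
  toFun f := ∫ x, f x * g x ∂μ
  map_add' f h := by
    rw [← integral_add (int_mul hp2 hpt f g) (int_mul hp2 hpt h g)]
    refine integral_congr_ae ?_
    filter_upwards [Lp.coeFn_add f h] with x hx
    rw [hx, Pi.add_apply]
    ring
  map_smul' c f := by
    rw [RingHom.id_apply, smul_eq_mul, ← integral_const_mul]
    refine integral_congr_ae ?_
    filter_upwards [Lp.coeFn_smul c f] with x hx
    rw [hx, Pi.smul_apply, smul_eq_mul]
    ring

lemma innL_apply (hp2 : 2 ≤ p) (hpt : p ≠ ⊤) (f g : Lp ℝ p μ) :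
    innL hp2 hpt g f = ∫ x, f x * g x ∂μ := rfl

lemma innL_comm (hp2 : 2 ≤ p) (hpt : p ≠ ⊤) (f g : Lp ℝ p μ) :
    innL hp2 hpt g f = innL hp2 hpt f g := by
  rw [innL_apply, innL_apply]
  simp_rw [mul_comm]

lemma innL_self_nonneg (hp2 : 2 ≤ p) (hpt : p ≠ ⊤) (f : Lp ℝ p μ) : 0 ≤ innL hp2 hpt f f := by
  rw [innL_apply]
  exact integral_nonneg fun x => mul_self_nonneg _

lemma innL_self_le (hp2 : 2 ≤ p) (hpt : p ≠ ⊤) (f : Lp ℝ p μ) :
    innL hp2 hpt f f ≤ (μ.real Set.univ + 1) * ‖f‖ ^ 2 := by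
  have hq := q_ge hp2 hpt
  set q := p.toReal with hqdef
  rcases eq_or_ne f 0 with hf | hf
  · rw [hf, map_zero]; simp
  have hN : 0 < ‖f‖ := norm_pos_iff.mpr hf
  set N := ‖f‖ with hNdef
  have hNq : 0 < N ^ q := Real.rpow_pos_of_pos hN q
  have hI1 : Integrable (fun x => |f x| ^ q) μ := int_pow hp2 hpt f
  have hpt' : ∀ x, f x * f x ≤ N ^ 2 * (1 + |f x| ^ q / N ^ q) := by
    intro x
    have h1 := sq_le_pow q (f x / N) hq
    rw [abs_div, abs_of_pos hN, Real.div_rpow (abs_nonneg _) hN.le, div_pow] at h1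
    calc f x * f x = N ^ 2 * ((f x) ^ 2 / N ^ 2) := by field_simp
      _ ≤ _ := mul_le_mul_of_nonneg_left h1 (by positivity)
  rw [innL_apply]
  calc ∫ x, f x * f x ∂μ ≤ ∫ x, N ^ 2 * (1 + |f x| ^ q / N ^ q) ∂μ :=
        integral_mono (int_mul hp2 hpt f f)
          (((integrable_const (1 : ℝ)).add (hI1.div_const _)).const_mul _) hpt'
    _ = N ^ 2 * (μ.real Set.univ + (∫ x, |f x| ^ q ∂μ) / N ^ q) := by
        rw [integral_const_mul, integral_add (integrable_const (1 : ℝ)) (hI1.div_const _),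
          integral_div, integral_const]
        simp
    _ = _ := by
        rw [← norm_pow hp2 hpt f, ← hNdef, div_self hNq.ne']
        ring

lemma innL_self_ge (hp2 : 2 ≤ p) (hpt : p ≠ ⊤) (g : Lp ℝ p μ) (hg : ‖g‖ = 1) (M : ℝ)
    (hM : 0 ≤ M) (hgM : ∀ᵐ x ∂μ, |g x| ≤ M) :
    1 ≤ M ^ (p.toReal - 2) * innL hp2 hpt g g := by
  have hq := q_ge hp2 hpt
  have h1 := norm_pow hp2 hpt g
  rw [hg, Real.one_rpow] at h1
  rw [h1, innL_apply, ← integral_const_mul]
  refine integral_mono_ae (int_pow hp2 hpt g) ((int_mul hp2 hpt g g).const_mul _) ?_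
  filter_upwards [hgM] with x hx
  rw [abs_rpow_eq _ _ hq]
  have : |g x| ^ (p.toReal - 2) ≤ M ^ (p.toReal - 2) :=
    Real.rpow_le_rpow (abs_nonneg _) hx (by linarith)
  nlinarith [mul_le_mul_of_nonneg_right this (mul_self_nonneg (g x))]

end quad

end Pool.Agent.MPf28597
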